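import Mathlib
import Pool.Agent.H15.KneB

set_option autoImplicit false

namespace Pool.Agent.Results.MP_473a0d_co.Cases

open Pool.Agent.H15.Kne

/-- The sets `{0}`, `A`, `A + A` are pairwise disjoint. -/
def SumFree {G : Type} [AddCommGroup G] (A : Set G) : Prop :=
  0 ∉ A ∧ ∀ a ∈ A, ∀ b ∈ A, a + b ≠ 0 ∧ a + b ∉ A

/-- The largest size of a `[0,2]`-sum-free set. -/
noncomputable def mu (G : Type) [AddCommGroup G] : ℕ :=
  sSup {k | ∃ A : Set G, SumFree A ∧ A.ncard = k}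

/-- The maximal size of a `[0,2]`-sum-free set in most finite abelian groups. -/
theorem result (G : Type) [AddCommGroup G] [Finite G] :
    (∀ p, IsLeast {p | p.Prime ∧ p ∣ Nat.card G ∧ p % 4 = 3} p →
      (mu G : ℚ) = (1 + 1 / p) * Nat.card G / 4) ∧
    ((∀ p, p.Prime → p ∣ Nat.card G → p % 4 ≠ 3) → mu G ≤ Nat.card G / 4 ∧
      (4 ∣ AddMonoid.exponent G ∨ Nat.card G % 4 = 2 → mu G = Nat.card G / 4)) := by
  have h := mu4 G (mu G) rfl
  refine ⟨h.1, fun k => ⟨(h.2 k).1, ?_⟩⟩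
  rintro (e | e)
  · obtain ⟨φ, hφ⟩ := surj (G := G) (j := 2) Nat.prime_two e two_ne_zero
    obtain ⟨A, a, b⟩ := low4 φ hφ (k := 1) (by norm_num)
    exact (h.2 k).2 A a (by omega)
  · obtain ⟨A, a, b⟩ := low2 e
    exact (h.2 k).2 A a (by omega)

end Pool.Agent.Results.MP_473a0d_co.Cases
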